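import Pool.Agent.W689.Ch.Wt
import Pool.Agent.W689.Mk.Star

set_option autoImplicit false

open Set Filter Topology Metric

namespace Pool.Agent.W689.Ch

open Pool.Agent.W689.Mk (lin hol_add hol_sub hol_inv_apply hol_apply_inv lin_inv_apply lin_mul
  lin_smul lin_neg hol_cont Rc hol_interior)

section
variable {X Γ E : Type} [TopologicalSpace X] [T2Space X] [Group Γ] [MulAction Γ X]
  [NormedAddCommGroup E] [NormedSpace ℝ E] [FiniteDimensional ℝ E]
  {dev : X → E} {hol : Γ →* (E ≃ᵃ[ℝ] E)}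

/-- an invariant convex set of vectors that misses the origin gives a field without zeros -/
theorem field_of_convex (D : AffMfd X Γ E dev hol) {N : Set E} (hN : Convex ℝ N) (h0 : (0 : E) ∉ N)
    {c0 : E} (hc : ∀ γ : Γ, lin hol γ c0 ∈ N) :
    ∃ Z : X → E, Continuous Z ∧ (∀ (γ : Γ) x, Z (γ • x) = lin hol γ (Z x)) ∧ ∀ x, Z x ≠ 0 := by
  obtain ⟨ρ, hρ⟩ := exists_wt D
  refine ⟨av ρ (fun γ : Γ => lin hol γ⁻¹ c0), av_cont D hρ _, fun γ x => av_lin hρ c0 γ x,
    fun x hx => h0 ?_⟩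
  rw [← hx]
  exact av_mem hρ hN (fun γ => hc _) x

/-- the recession cone of an invariant convex set is symmetric, or there is a field -/
theorem field_of_cone (D : AffMfd X Γ E dev hol) {C : Set E} (hC : Convex ℝ C)
    (hinv : ∀ (γ : Γ), ∀ p ∈ C, hol γ p ∈ C) {c0 : E} (hc0 : c0 ∈ Rc C) (hc0' : -c0 ∉ Rc C) :
    ∃ Z : X → E, Continuous Z ∧ (∀ (γ : Γ) x, Z (γ • x) = lin hol γ (Z x)) ∧ ∀ x, Z x ≠ 0 := by
  have hN : Convex ℝ {v | v ∈ Rc C ∧ -v ∉ Rc C} := by
    intro v hv w hw a b ha hb hab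
    refine ⟨Rc.convex hC hv.1 hw.1 ha hb hab, fun h => ?_⟩
    rcases eq_or_lt_of_le ha with h0 | h0
    · have hb1 : b = 1 := by linarith
      rw [← h0, hb1, zero_smul, zero_add, one_smul] at h
      exact hw.2 h
    · apply hv.2
      have h1 := Rc.smul hC (Rc.add h (Rc.smul hC hw.1 hb)) (inv_nonneg.2 h0.le)
      have h2 : a⁻¹ • (-(a • v + b • w) + b • w) = -v := by
        have : -(a • v + b • w) + b • w = -(a • v) := by abel
        rw [this, smul_neg, smul_smul, inv_mul_cancel₀ h0.ne', one_smul]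
      rwa [h2] at h1
  refine field_of_convex D hN (c0 := c0) (fun h => h.2 ?_) fun γ => ⟨Rc.lin hinv γ hc0, fun h => hc0' ?_⟩
  · rw [neg_zero]; exact h.1
  · have h1 := Rc.lin hinv γ⁻¹ h
    rwa [lin_neg, lin_inv_apply] at h1

/-- an invariant convex set that misses the developing image gives a field -/
theorem field_of_disjoint (D : AffMfd X Γ E dev hol) {C : Set E} (hC : Convex ℝ C)
    (hinv : ∀ (γ : Γ), ∀ p ∈ C, hol γ p ∈ C) (hne : C.Nonempty) (hd : ∀ x, dev x ∉ C) :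
    ∃ Z : X → E, Continuous Z ∧ (∀ (γ : Γ) x, Z (γ • x) = lin hol γ (Z x)) ∧ ∀ x, Z x ≠ 0 := by
  obtain ⟨ρ, hρ⟩ := exists_wt D
  obtain ⟨p, hp⟩ := hne
  refine ⟨fun x => av ρ (fun γ : Γ => hol γ⁻¹ p) x - dev x,
    (av_cont D hρ _).sub D.loc.continuous, fun γ x => ?_, fun x hx => hd x ?_⟩
  · show av ρ (fun γ : Γ => hol γ⁻¹ p) (γ • x) - dev (γ • x) = _
    rw [av_hol hρ, D.equi, hol_sub]
  · have h1 := av_mem hρ hC (P := fun γ : Γ => hol γ⁻¹ p) (fun γ => hinv _ _ hp) x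
    rw [sub_eq_zero] at hx
    rwa [hx] at h1

/-- the pushing lemma -/
theorem push (D : AffMfd X Γ E dev hol) {C : Set E} (hC : Convex ℝ C) (hcl : IsClosed C)
    (hne : C.Nonempty) (hinv : ∀ (γ : Γ), ∀ p ∈ C, hol γ p ∈ C) (hsym : ∀ v ∈ Rc C, -v ∈ Rc C)
    {U : Set (E × E)} (hU : IsOpen U) (hUinv : ∀ (γ : Γ), ∀ q ∈ U, (hol γ q.1, hol γ q.2) ∈ U)
    (hUL : ∀ q ∈ U, ∀ v ∈ Rc C, ∀ w ∈ Rc C, (q.1 + v, q.2 + w) ∈ U) {t0 : ℝ} (ht0 : 0 ≤ t0)
    (h0 : ∀ x, ∀ c ∈ C, (c, c + t0 • (dev x - c)) ∈ U) :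
    ∀ t, t0 ≤ t → ∀ x, ∀ c ∈ C, (c, c + t • (dev x - c)) ∈ U := by
  by_contra hcon
  push Not at hcon
  obtain ⟨t1, ht1, x1, c1, hc1, hbad⟩ := hcon
  obtain ⟨P, B, hP1, hP2, hP3, hB⟩ := Pool.Agent.W689.Mk.exists_proj hC hcl hne hsym
  obtain ⟨K, hK, hcov⟩ := D.cc
  let Kc : Set E := C ∩ {q | P q = q ∧ ‖q‖ ≤ B}
  have hPc : Continuous P := P.continuous_of_finiteDimensional
  have hKc : IsCompact Kc := by
    have h5 : Kc = closedBall 0 B ∩ (C ∩ {q | P q = q}) := by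
      ext q
      simp only [Kc, mem_inter_iff, mem_closedBall, dist_zero_right]
      constructor
      · rintro ⟨ha, hb, hc⟩; exact ⟨hc, ha, hb⟩
      · rintro ⟨hc, ha, hb⟩; exact ⟨ha, hb, hc⟩
    rw [h5]
    exact (isCompact_closedBall _ _).inter_right (hcl.inter (isClosed_eq hPc continuous_id))
  have hPC : ∀ q ∈ C, P q ∈ C := by
    intro q hq
    have h1 := hsym _ (hP1 q) q hq
    have h3 : q + -(q - P q) = P q := by abel
    rwa [h3] at h1
  have hscale : ∀ (t : ℝ) v, v ∈ Rc C → t • v ∈ Rc C := by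
    intro t v hv
    rcases le_or_gt 0 t with h | h
    · exact Rc.smul hC hv h
    · have := Rc.smul hC (hsym v hv) (t := -t) (by linarith)
      rwa [smul_neg, neg_smul, neg_neg] at this
  -- moving a bad triple into the compact set
  have hred : ∀ (t : ℝ) x, ∀ c ∈ C, (c, c + t • (dev x - c)) ∉ U →
      ∃ k ∈ K, ∃ c' ∈ Kc, (c', c' + t • (dev k - c')) ∉ U := by
    intro t x c hc hb
    obtain ⟨γ, k, hk, hγ⟩ := hcov x
    have hc' := hinv γ⁻¹ c hc
    refine ⟨k, hk, P (hol γ⁻¹ c), ⟨hPC _ hc', hP3 _, hB _ hc'⟩, fun hmem => hb ?_⟩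
    obtain ⟨c2, hc2⟩ : ∃ c2, c2 = hol γ⁻¹ c := ⟨_, rfl⟩
    rw [← hc2] at hmem hc'
    have h1 := hUL _ hmem (c2 - P c2) (hP1 c2) ((1 - t) • (c2 - P c2)) (hscale _ _ (hP1 c2))
    have e1 : P c2 + (c2 - P c2) = c2 := by abel
    have e2 : P c2 + t • (dev k - P c2) + (1 - t) • (c2 - P c2) = c2 + t • (dev k - c2) := by
      module
    rw [e1, e2] at h1
    have h2 := hUinv γ _ h1
    have e3 : hol γ c2 = c := by rw [hc2, hol_apply_inv]
    have e4 : hol γ (c2 + t • (dev k - c2)) = c + t • (dev x - c) := by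
      rw [hol_add, lin_smul, ← hol_sub, e3, ← D.equi, hγ]
    rwa [e3, e4] at h2
  -- the compact set of bad triples
  let A : Set (ℝ × X × E) := (Icc t0 t1 ×ˢ (K ×ˢ Kc)) ∩
    {a | (a.2.2, a.2.2 + a.1 • (dev a.2.1 - a.2.2)) ∉ U}
  have hdc := D.loc.continuous
  have hA : IsCompact A := by
    refine (isCompact_Icc.prod (hK.prod hKc)).inter_right ?_
    have hc : Continuous fun a : ℝ × X × E => (a.2.2, a.2.2 + a.1 • (dev a.2.1 - a.2.2)) := by
      fun_prop
    exact hU.isClosed_compl.preimage hc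
  have hAne : A.Nonempty := by
    obtain ⟨k, hk, c', hc', hb⟩ := hred t1 x1 c1 hc1 hbad
    exact ⟨(t1, k, c'), ⟨⟨⟨ht1, le_rfl⟩, hk, hc'⟩, hb⟩⟩
  obtain ⟨⟨m, x, c⟩, hmem, hmin⟩ := hA.exists_isMinOn hAne (f := fun a : ℝ × X × E => a.1)
    (by fun_prop)
  obtain ⟨⟨⟨hm0, hm1⟩, hxK, hcK⟩, hb⟩ := hmem
  replace hm0 : t0 ≤ m := hm0
  replace hm1 : m ≤ t1 := hm1
  replace hb : (c, c + m • (dev x - c)) ∉ U := hb
  have hcC : c ∈ C := hcK.1
  have hlt : t0 < m := by
    rcases eq_or_lt_of_le hm0 with h | h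
    · exact absurd (h ▸ h0 x c hcC) hb
    · exact h
  have hev1 : ∀ᶠ ε : ℝ in 𝓝 0, dev x + ε • (dev x - c) ∈ range dev := by
    have hc : Continuous fun ε : ℝ => dev x + ε • (dev x - c) := by fun_prop
    refine hc.continuousAt.preimage_mem_nhds (D.loc.isOpenMap.isOpen_range.mem_nhds ?_)
    rw [zero_smul, add_zero]
    exact mem_range_self x
  have hev2 : ∀ᶠ ε : ℝ in 𝓝 0, t0 < m / (1 + ε) := by
    have hc : ContinuousAt (fun ε : ℝ => m / (1 + ε)) 0 := by
      refine continuousAt_const.div (by fun_prop) (by norm_num)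
    refine hc.eventually (lt_mem_nhds ?_)
    show t0 < m / (1 + 0)
    rw [add_zero, div_one]
    exact hlt
  obtain ⟨ε, ⟨hε1, hε2⟩, hε0⟩ :=
    (((hev1.and hev2).filter_mono nhdsWithin_le_nhds).and
      (self_mem_nhdsWithin : Ioi (0 : ℝ) ∈ 𝓝[>] 0)).exists
  replace hε0 : 0 < ε := hε0
  obtain ⟨x', hx'⟩ := hε1
  have hbad' : (c, c + (m / (1 + ε)) • (dev x' - c)) ∉ U := by
    have e1 : (m / (1 + ε)) • (dev x' - c) = m • (dev x - c) := by
      have e2 : dev x' - c = (1 + ε) • (dev x - c) := by rw [hx']; module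
      rw [e2, smul_smul, div_mul_cancel₀ _ (by positivity)]
    rwa [e1]
  obtain ⟨k, hk, c', hc', hb'⟩ := hred _ x' c hcC hbad'
  have hmpos : 0 < m := lt_of_le_of_lt ht0 hlt
  have hmlt : m / (1 + ε) < m := by
    rw [div_lt_iff₀ (by positivity)]
    nlinarith
  have hfin : m ≤ m / (1 + ε) := by
    have h1 : ((m / (1 + ε), k, c') : ℝ × X × E) ∈ A :=
      ⟨⟨⟨hε2.le, hmlt.le.trans hm1⟩, hk, hc'⟩, hb'⟩
    exact hmin h1
  linarith

omit [FiniteDimensional ℝ E] [NormedSpace ℝ E] in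
theorem Rc_interior {C : Set E} {v : E} (hv : v ∈ Rc C) {z : E} (hz : z ∈ interior C) :
    z + v ∈ interior C := by
  have h1 : IsOpen ((fun q => q - v) ⁻¹' interior C) :=
    isOpen_interior.preimage (continuous_id.sub continuous_const)
  have h2 : (fun q => q - v) ⁻¹' interior C ⊆ C := by
    intro q hq
    have := hv _ (interior_subset hq)
    rwa [sub_add_cancel] at this
  refine interior_maximal h2 h1 ?_
  show z + v - v ∈ interior C
  rwa [add_sub_cancel_right]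

/-- no proper invariant closed convex set with interior points and symmetric recession cone -/
theorem no_conv (D : AffMfd X Γ E dev hol) [Nonempty X] {C : Set E} (hC : Convex ℝ C)
    (hcl : IsClosed C) (hint : (interior C).Nonempty) (hinv : ∀ (γ : Γ), ∀ p ∈ C, hol γ p ∈ C)
    (hsym : ∀ v ∈ Rc C, -v ∈ Rc C) (hproper : C ≠ univ) : False := by
  have hne : C.Nonempty := hint.mono interior_subset
  obtain ⟨P, B, hP1, hP2, hP3, hB⟩ := Pool.Agent.W689.Mk.exists_proj hC hcl hne hsym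
  obtain ⟨v, hv⟩ : ∃ v, P v ≠ 0 := by
    by_contra hcon
    push Not at hcon
    apply hproper
    obtain ⟨p, hp⟩ := hne
    ext q
    refine ⟨fun _ => trivial, fun _ => ?_⟩
    have h1 := hP1 (q - p)
    rw [hcon, sub_zero] at h1
    have := h1 p hp
    rwa [add_sub_cancel] at this
  obtain ⟨p0, hp0⟩ := hint
  let U : Set (E × E) := {q | ∃ b ∈ C, q.2 - q.1 + b ∈ interior C}
  have hU : IsOpen U := by
    have : U = ⋃ b ∈ C, (fun q : E × E => q.2 - q.1 + b) ⁻¹' interior C := by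
      ext q; simp [U]
    rw [this]
    exact isOpen_biUnion fun b _ => isOpen_interior.preimage (by fun_prop)
  have hUinv : ∀ (γ : Γ), ∀ q ∈ U, (hol γ q.1, hol γ q.2) ∈ U := by
    rintro γ ⟨a, z⟩ ⟨b, hb, h⟩
    refine ⟨hol γ b, hinv γ b hb, ?_⟩
    show hol γ z - hol γ a + hol γ b ∈ interior C
    have e : hol γ z - hol γ a + hol γ b = hol γ (z - a + b) := by
      rw [hol_sub, add_comm, ← hol_add, add_comm]
    rw [e]
    exact hol_interior hinv γ h
  have hUL : ∀ q ∈ U, ∀ v ∈ Rc C, ∀ w ∈ Rc C, (q.1 + v, q.2 + w) ∈ U := by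
    rintro ⟨a, z⟩ ⟨b, hb, h⟩ v hv w hw
    refine ⟨b, hb, ?_⟩
    show z + w - (a + v) + b ∈ interior C
    have e : z + w - (a + v) + b = (z - a + b) + (w + -v) := by abel
    rw [e]
    exact Rc_interior (Rc.add hw (hsym v hv)) h
  have key := push D hC hcl hne hinv hsym hU hUinv hUL (t0 := 0) le_rfl (fun x c _ => by
    refine ⟨p0, interior_subset hp0, ?_⟩
    show c + (0 : ℝ) • (dev x - c) - c + p0 ∈ interior C
    rwa [zero_smul, add_zero, sub_self, zero_add])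
  have hzero : ∀ x, ∀ c ∈ C, P (dev x - c) = 0 := by
    intro x c hc
    by_contra hne0
    have hpos : 0 < ‖P (dev x - c)‖ := norm_pos_iff.2 hne0
    obtain ⟨t, ht⟩ : ∃ t : ℝ, 2 * B < t * ‖P (dev x - c)‖ :=
      ⟨(2 * B + 1) / ‖P (dev x - c)‖, by rw [div_mul_cancel₀ _ hpos.ne']; linarith⟩
    have hB0 : 0 ≤ B := (norm_nonneg _).trans (hB c hc)
    have ht0 : 0 ≤ t := by
      by_contra h
      push Not at h
      have := mul_neg_of_neg_of_pos h hpos
      linarith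
    obtain ⟨b, hb, h⟩ := key t ht0 x c hc
    have h1 := hB _ (interior_subset h)
    have e : c + t • (dev x - c) - c + b = t • (dev x - c) + b := by abel
    change ‖P (c + t • (dev x - c) - c + b)‖ ≤ B at h1
    rw [e, map_add, map_smul] at h1
    have h2 := norm_sub_le (t • P (dev x - c) + P b) (P b)
    rw [add_sub_cancel_right, norm_smul, Real.norm_eq_abs, abs_of_nonneg ht0] at h2
    have h3 := hB b hb
    linarith
  obtain ⟨x⟩ := ‹Nonempty X›
  obtain ⟨c, hc⟩ := hne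
  have hev1 : ∀ᶠ ε : ℝ in 𝓝 0, dev x + ε • v ∈ range dev := by
    have hcont : Continuous fun ε : ℝ => dev x + ε • v := by fun_prop
    refine hcont.continuousAt.preimage_mem_nhds (D.loc.isOpenMap.isOpen_range.mem_nhds ?_)
    rw [zero_smul, add_zero]
    exact mem_range_self x
  obtain ⟨ε, hε1, hε0⟩ := ((hev1.filter_mono nhdsWithin_le_nhds).and
    (self_mem_nhdsWithin : Ioi (0 : ℝ) ∈ 𝓝[>] 0)).exists
  replace hε0 : 0 < ε := hε0
  obtain ⟨x', hx'⟩ := hε1
  have h1 := hzero x c hc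
  have h2 := hzero x' c hc
  have e : dev x' - c = (dev x - c) + ε • v := by rw [hx']; abel
  rw [e, map_add, h1, zero_add, map_smul] at h2
  exact hv ((smul_eq_zero.1 h2).resolve_left hε0.ne')

/-- the centres of an open set -/
def Cen (Ω : Set E) : Set E :=
  {c | ∀ q ∈ Ω, ∀ t : ℝ, 0 < t → t ≤ 1 → (1 - t) • c + t • q ∈ Ω}

omit [FiniteDimensional ℝ E] in
theorem Cen.convex (Ω : Set E) : Convex ℝ (Cen Ω) := by
  intro c hc c' hc' a b ha hb hab q hq t ht0 ht1
  have hs0 : 0 < (1 - t) * b + t := by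
    have : 0 ≤ (1 - t) * b := mul_nonneg (by linarith) hb
    linarith
  have hb1 : b ≤ 1 := by linarith
  have h1 := hc' q hq (t / ((1 - t) * b + t)) (by positivity) (by
    rw [div_le_one hs0]
    have : 0 ≤ (1 - t) * b := mul_nonneg (by linarith) hb
    linarith)
  have h2 := hc _ h1 ((1 - t) * b + t) hs0 (by nlinarith)
  have e : (1 - ((1 - t) * b + t)) • c + ((1 - t) * b + t) •
      ((1 - t / ((1 - t) * b + t)) • c' + (t / ((1 - t) * b + t)) • q) =
      (1 - t) • (a • c + b • c') + t • q := by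
    rw [smul_add, smul_smul, smul_smul, mul_div_cancel₀ _ hs0.ne', mul_sub, mul_one,
      mul_div_cancel₀ _ hs0.ne']
    have ha' : a = 1 - b := by linarith
    rw [ha']
    module
  rwa [e] at h2

omit [FiniteDimensional ℝ E] in
theorem Cen.closed {Ω : Set E} (hΩ : IsOpen Ω) : IsClosed (Cen Ω) := by
  rw [← closure_subset_iff_isClosed]
  intro c hc q hq t ht0 ht1
  have h1 : Continuous fun c' : E => q + ((1 - t) / t) • (c - c') := by fun_prop
  have h2 : {c' : E | q + ((1 - t) / t) • (c - c') ∈ Ω} ∈ 𝓝 c := by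
    refine h1.continuousAt.preimage_mem_nhds (hΩ.mem_nhds ?_)
    show q + ((1 - t) / t) • (c - c) ∈ Ω
    rwa [sub_self, smul_zero, add_zero]
  obtain ⟨c', h3, h4⟩ := mem_closure_iff_nhds.1 hc _ h2
  have h5 := h4 _ h3 t ht0 ht1
  have e : (1 - t) • c' + t • (q + ((1 - t) / t) • (c - c')) = (1 - t) • c + t • q := by
    rw [smul_add, smul_smul, mul_div_cancel₀ _ ht0.ne']
    module
  rwa [e] at h5

omit [TopologicalSpace X] [T2Space X] [MulAction Γ X] in
theorem Cen.inv {Ω : Set E} (hinv : ∀ (γ : Γ), ∀ q ∈ Ω, hol γ q ∈ Ω) (γ : Γ) {c : E}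
    (hc : c ∈ Cen Ω) : hol γ c ∈ Cen Ω := by
  intro q hq t ht0 ht1
  have h1 := hinv γ _ (hc _ (hinv γ⁻¹ q hq) t ht0 ht1)
  have e1 : (1 - t) • c + t • hol γ⁻¹ q = c + t • (hol γ⁻¹ q - c) := by module
  rw [e1, hol_add, lin_smul, ← hol_sub, hol_apply_inv] at h1
  have e2 : hol γ c + t • (q - hol γ c) = (1 - t) • hol γ c + t • q := by module
  rwa [e2] at h1

omit [FiniteDimensional ℝ E] in
theorem Cen.of_star {S : Set E} {p : E} (hs : StarConvex ℝ p S) : p ∈ Cen (interior S) := by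
  intro q hq t ht0 ht1
  have h1 : IsOpen ((fun z => p + t⁻¹ • (z - p)) ⁻¹' interior S) :=
    isOpen_interior.preimage (by fun_prop)
  have h2 : (fun z => p + t⁻¹ • (z - p)) ⁻¹' interior S ⊆ S := by
    intro z hz
    have h3 := hs (interior_subset hz) (a := 1 - t) (b := t) (by linarith) ht0.le (by ring)
    have e : (1 - t) • p + t • (p + t⁻¹ • (z - p)) = z := by
      rw [smul_add, smul_smul, mul_inv_cancel₀ ht0.ne']
      module
    rwa [e] at h3
  refine interior_maximal h2 h1 ?_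
  show p + t⁻¹ • ((1 - t) • p + t • q - p) ∈ interior S
  have e : p + t⁻¹ • ((1 - t) • p + t • q - p) = q := by
    have e1 : (1 - t) • p + t • q - p = t • (q - p) := by module
    rw [e1, smul_smul, inv_mul_cancel₀ ht0.ne', one_smul, add_sub_cancel]
  rwa [e]

omit [FiniteDimensional ℝ E] in
theorem Cen.rc {Ω : Set E} (hΩ : IsOpen Ω) {c v : E} (hc : c ∈ Cen Ω) (hv : v ∈ Rc (Cen Ω)) {q : E}
    (hq : q ∈ Ω) : q + v ∈ Ω := by
  have h1 : Continuous fun δ : ℝ => q + δ • (q - c) := by fun_prop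
  have h2 : ∀ᶠ δ : ℝ in 𝓝 0, q + δ • (q - c) ∈ Ω := by
    refine h1.continuousAt.preimage_mem_nhds (hΩ.mem_nhds ?_)
    rwa [zero_smul, add_zero]
  obtain ⟨δ, hδ1, hδ0⟩ := ((h2.filter_mono nhdsWithin_le_nhds).and
    (self_mem_nhdsWithin : Ioi (0 : ℝ) ∈ 𝓝[>] 0)).exists
  replace hδ0 : 0 < δ := hδ0
  have hp : 0 < 1 + δ := by linarith
  have h3 := (Rc.smul (Cen.convex Ω) hv (t := (1 + δ) / δ) (by positivity)) c hc
  have h4 := h3 _ hδ1 (1 / (1 + δ)) (by positivity) (by rw [div_le_one hp]; linarith)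
  have e1 : (1 : ℝ) - 1 / (1 + δ) = δ / (1 + δ) := by field_simp; ring
  have e2 : δ / (1 + δ) * ((1 + δ) / δ) = 1 := by field_simp
  have e3 : 1 / (1 + δ) * δ = δ / (1 + δ) := by ring
  have e4 : δ / (1 + δ) = 1 - 1 / (1 + δ) := e1.symm
  have e : (1 - 1 / (1 + δ)) • (c + ((1 + δ) / δ) • v) + (1 / (1 + δ)) • (q + δ • (q - c)) =
      q + v := by
    rw [e1, smul_add, smul_smul, e2, one_smul, smul_add, smul_smul, e3]
    nth_rewrite 1 [e4]
    rw [e4]
    module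
  rwa [e] at h4

/-- a proper star-shaped set that contains the developing image gives a field -/
theorem field_of_range (D : AffMfd X Γ E dev hol) [Nonempty X] {S : Set E} {p : E}
    (hs : StarConvex ℝ p S) (hne : S ≠ univ) (hinv : ∀ (γ : Γ), ∀ q ∈ S, hol γ q ∈ S)
    (hr : range dev ⊆ S) :
    ∃ Z : X → E, Continuous Z ∧ (∀ (γ : Γ) x, Z (γ • x) = lin hol γ (Z x)) ∧ ∀ x, Z x ≠ 0 := by
  obtain ⟨Ω, hΩ⟩ : ∃ Ω, Ω = interior S := ⟨_, rfl⟩
  have hΩo : IsOpen Ω := by rw [hΩ]; exact isOpen_interior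
  have hΩr : range dev ⊆ Ω := by
    rw [hΩ]; exact interior_maximal hr D.loc.isOpenMap.isOpen_range
  have hΩinv : ∀ (γ : Γ), ∀ q ∈ Ω, hol γ q ∈ Ω := by
    intro γ q hq
    rw [hΩ] at hq ⊢
    exact hol_interior hinv γ hq
  have hpC : p ∈ Cen Ω := by rw [hΩ]; exact Cen.of_star hs
  have hΩne : ∃ z, z ∉ Ω := by
    by_contra hcon
    push Not at hcon
    apply hne
    refine univ_subset_iff.1 fun z _ => ?_
    have := hcon z
    rw [hΩ] at this
    exact interior_subset this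
  obtain ⟨z, hz⟩ := hΩne
  have hC := Cen.convex Ω
  have hcl := Cen.closed hΩo
  have hCinv : ∀ (γ : Γ), ∀ c ∈ Cen Ω, hol γ c ∈ Cen Ω := fun γ c hc => Cen.inv hΩinv γ hc
  by_cases hsym : ∀ v ∈ Rc (Cen Ω), -v ∈ Rc (Cen Ω)
  · by_cases hd : ∀ x, dev x ∉ Cen Ω
    · exact field_of_disjoint D hC hCinv ⟨p, hpC⟩ hd
    · exfalso
      push Not at hd
      obtain ⟨x1, hx1⟩ := hd
      let U : Set (E × E) := {q | q.2 ∈ Ω}
      have hU : IsOpen U := hΩo.preimage continuous_snd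
      have key := push D hC hcl ⟨p, hpC⟩ hCinv hsym hU (fun γ q hq => hΩinv γ _ hq)
        (fun q hq v _ w hw => Cen.rc hΩo hpC hw hq) (t0 := 1) zero_le_one (fun x c _ => by
          show c + (1 : ℝ) • (dev x - c) ∈ Ω
          rw [one_smul, add_sub_cancel]
          exact hΩr (mem_range_self x))
      have hev1 : ∀ᶠ ε : ℝ in 𝓝 0, dev x1 + ε • (z - dev x1) ∈ range dev := by
        have hcont : Continuous fun ε : ℝ => dev x1 + ε • (z - dev x1) := by fun_prop
        refine hcont.continuousAt.preimage_mem_nhds (D.loc.isOpenMap.isOpen_range.mem_nhds ?_)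
        rw [zero_smul, add_zero]
        exact mem_range_self x1
      have hev2 : ∀ᶠ ε : ℝ in 𝓝 0, ε < 1 := gt_mem_nhds one_pos
      obtain ⟨ε, ⟨hε1, hε2⟩, hε0⟩ :=
        (((hev1.and hev2).filter_mono nhdsWithin_le_nhds).and
          (self_mem_nhdsWithin : Ioi (0 : ℝ) ∈ 𝓝[>] 0)).exists
      replace hε0 : 0 < ε := hε0
      obtain ⟨x', hx'⟩ := hε1
      have h1 : dev x1 + ε⁻¹ • (dev x' - dev x1) ∈ Ω :=
        key ε⁻¹ ((one_le_inv₀ hε0).2 hε2.le) x' (dev x1) hx1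
      rw [hx', add_sub_cancel_left, smul_smul, inv_mul_cancel₀ hε0.ne', one_smul,
        add_sub_cancel] at h1
      exact hz h1
  · push Not at hsym
    obtain ⟨v, hv, hv'⟩ := hsym
    exact field_of_cone D hC hCinv hv hv'

end

end Pool.Agent.W689.Ch
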