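import Pool.Agent.W689.Ch.Core

set_option autoImplicit false

open Set Filter Topology Metric

namespace Pool.Agent.W689.Ch

open Pool.Agent.W689.Mk (lin hol_add hol_sub hol_inv_apply hol_apply_inv lin_inv_apply lin_mul
  lin_smul lin_neg hol_cont Rc hol_interior)

/-- continuous functions on compact subsets extend -/
theorem ext_compact {X E : Type} [TopologicalSpace X] [T2Space X] [LocallyCompactSpace X]
    [NormedAddCommGroup E] [NormedSpace ℝ E] [FiniteDimensional ℝ E] {K : Set X}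
    (hK : IsCompact K) {f : X → E} (hf : ContinuousOn f K) :
    ∃ g : X → E, Continuous g ∧ ∀ x ∈ K, g x = f x := by
  have : CompactSpace K := isCompact_iff_compactSpace.1 hK
  have : TietzeExtension E := TietzeExtension.of_tvs ℝ
  have he : IsClosedEmbedding (fun x : K => ((x : X) : OnePoint X)) :=
    (OnePoint.continuous_coe.comp continuous_subtype_val).isClosedEmbedding
      (OnePoint.coe_injective.comp Subtype.val_injective)
  obtain ⟨g, hg⟩ := ContinuousMap.exists_extension he ⟨K.domRestrict f, hf.domRestrict⟩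
  refine ⟨fun x => g (x : OnePoint X), g.continuous.comp OnePoint.continuous_coe, fun x hx => ?_⟩
  exact congrArg (fun h : C(K, E) => h ⟨x, hx⟩) hg

section
variable {X Γ E : Type} [TopologicalSpace X] [T2Space X] [Group Γ] [MulAction Γ X]
  [NormedAddCommGroup E] [NormedSpace ℝ E] [FiniteDimensional ℝ E]
  {dev : X → E} {hol : Γ →* (E ≃ᵃ[ℝ] E)}

/-- the projection onto an affine subspace -/
theorem exists_aff_proj (H : AffineSubspace ℝ E) (hne : (H : Set E).Nonempty) :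
    ∃ π : E → E, Continuous π ∧ (∀ q, π q ∈ H) ∧ ∀ q ∈ H, π q = q := by
  obtain ⟨h0, hh0⟩ := hne
  obtain ⟨S, hS⟩ := H.direction.exists_isCompl
  let P : E →ₗ[ℝ] E := H.direction.subtype ∘ₗ Submodule.projectionOnto H.direction S hS
  have hPS : ∀ v, P v ∈ H.direction := fun v => (Submodule.projectionOnto H.direction S hS v).2
  have hPid : ∀ v ∈ H.direction, P v = v := by
    intro v hv
    have := Submodule.projectionOnto_apply_left hS ⟨v, hv⟩
    show ((Submodule.projectionOnto H.direction S hS v : H.direction) : E) = v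
    rw [this]
  have hPc : Continuous P := P.continuous_of_finiteDimensional
  refine ⟨fun q => h0 + P (q - h0), by fun_prop, fun q => ?_, fun q hq => ?_⟩
  · have := AffineSubspace.vadd_mem_of_mem_direction (hPS (q - h0)) hh0
    rwa [vadd_eq_add, add_comm] at this
  · show h0 + P (q - h0) = q
    have h1 : q - h0 ∈ H.direction := AffineSubspace.vsub_mem_direction hq hh0
    rw [hPid _ h1, add_sub_cancel]

/-- a tangent field without zeros on the preimage of an invariant affine subspace extends -/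
theorem extend (D : AffMfd X Γ E dev hol) {H : AffineSubspace ℝ E}
    (hne : (H : Set E).Nonempty) (hinv : ∀ (γ : Γ), ∀ q ∈ H, hol γ q ∈ H) {Z : X → E}
    (hZc : ContinuousOn Z (dev ⁻¹' H)) (hZt : ∀ x, dev x ∈ H → Z x ∈ H.direction ∧ Z x ≠ 0)
    (hZe : ∀ (γ : Γ) x, dev x ∈ H → Z (γ • x) = lin hol γ (Z x)) :
    ∃ Z : X → E, Continuous Z ∧ (∀ (γ : Γ) x, Z (γ • x) = lin hol γ (Z x)) ∧ ∀ x, Z x ≠ 0 := by
  have := locComp D
  obtain ⟨ρ, hρ⟩ := exists_wt D
  have hdc := D.loc.continuous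
  obtain ⟨π, hπc, hπH, hπid⟩ := exists_aff_proj H hne
  have hHcl : IsClosed (dev ⁻¹' (H : Set E)) :=
    (AffineSubspace.closed_of_finiteDimensional H).preimage hdc
  have hK0 : IsCompact (tsupport ρ ∩ dev ⁻¹' (H : Set E)) := hρ.cpt.isCompact.inter_right hHcl
  obtain ⟨g0, hg0c, hg0⟩ := ext_compact hK0 (f := fun x => dev x + Z x)
    (hdc.continuousOn.add (hZc.mono inter_subset_right))
  obtain ⟨g, hg⟩ : ∃ g : X → E, g = fun x => π (g0 x) := ⟨_, rfl⟩
  have hgc : Continuous g := by rw [hg]; exact hπc.comp hg0c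
  have hgH : ∀ x, g x ∈ H := by rw [hg]; exact fun x => hπH _
  have hgN : ∀ x, ρ x ≠ 0 → dev x ∈ H → g x = dev x + Z x := by
    intro x hx hxH
    rw [hg]
    show π (g0 x) = _
    rw [hg0 x ⟨subset_tsupport ρ hx, hxH⟩]
    apply hπid
    have := AffineSubspace.vadd_mem_of_mem_direction (hZt x hxH).1 hxH
    rwa [vadd_eq_add, add_comm] at this
  let F : X → E := fun x => ∑' γ : Γ, ρ (γ • x) • hol γ⁻¹ (g (γ • x))
  have hfin : ∀ x, ∃ S : Finset Γ, F x = ∑ γ ∈ S, ρ (γ • x) • hol γ⁻¹ (g (γ • x)) ∧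
      ∑ γ ∈ S, ρ (γ • x) = 1 := by
    intro x
    obtain ⟨U, hU, S, hS⟩ := hρ.locfin x
    have hx := mem_of_mem_nhds hU
    refine ⟨S, tsum_eq_sum fun γ hγ => by rw [hS γ hγ x hx, zero_smul], ?_⟩
    rw [← hρ.sum x]
    exact (tsum_eq_sum fun γ hγ => hS γ hγ x hx).symm
  have hFc : Continuous F := by
    refine cont_tsum (fun γ => ?_) fun x => ?_
    · exact (hρ.cont.comp (D.cont γ)).smul ((hol_cont _).comp (hgc.comp (D.cont γ)))
    · obtain ⟨U, hU, S, hS⟩ := hρ.locfin x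
      exact ⟨U, hU, S, fun γ hγ y hy => by rw [hS γ hγ y hy, zero_smul]⟩
  have hFH : ∀ x, F x ∈ H := by
    intro x
    obtain ⟨S, h1, h2⟩ := hfin x
    rw [h1]
    exact H.convex.sum_mem (fun γ _ => hρ.nonneg _) h2 (fun γ _ => hinv _ _ (hgH _))
  have hFe : ∀ (δ : Γ) x, F (δ • x) = hol δ (F x) := by
    intro δ x
    have e1 : F (δ • x) = ∑' γ : Γ, ρ (γ • x) • hol δ (hol γ⁻¹ (g (γ • x))) := by
      show ∑' γ : Γ, ρ (γ • δ • x) • hol γ⁻¹ (g (γ • δ • x)) = _
      rw [← Equiv.tsum_eq (Equiv.mulRight δ)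
        (fun γ : Γ => ρ (γ • x) • hol δ (hol γ⁻¹ (g (γ • x))))]
      refine tsum_congr fun γ => ?_
      show ρ (γ • δ • x) • hol γ⁻¹ (g (γ • δ • x)) =
        ρ ((γ * δ) • x) • hol δ (hol (γ * δ)⁻¹ (g ((γ * δ) • x)))
      rw [smul_smul, mul_inv_rev, map_mul]
      show _ = ρ ((γ * δ) • x) • hol δ (hol δ⁻¹ (hol γ⁻¹ (g ((γ * δ) • x))))
      rw [hol_apply_inv]
    obtain ⟨U, hU, S, hS⟩ := hρ.locfin x
    have hx := mem_of_mem_nhds hU
    have hs : ∑ γ ∈ S, ρ (γ • x) = 1 := by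
      rw [← hρ.sum x]
      exact (tsum_eq_sum fun γ hγ => hS γ hγ x hx).symm
    have e2 : F x = ∑ γ ∈ S, ρ (γ • x) • hol γ⁻¹ (g (γ • x)) :=
      tsum_eq_sum fun γ hγ => by rw [hS γ hγ x hx, zero_smul]
    have e3 : ∑' γ : Γ, ρ (γ • x) • hol δ (hol γ⁻¹ (g (γ • x))) =
        ∑ γ ∈ S, ρ (γ • x) • hol δ (hol γ⁻¹ (g (γ • x))) :=
      tsum_eq_sum fun γ hγ => by rw [hS γ hγ x hx, zero_smul]
    have h1 : ∀ v, hol δ v = hol δ 0 + lin hol δ v := fun v => by
      have := hol_add (hol := hol) δ 0 v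
      rwa [zero_add] at this
    let A : E →L[ℝ] E := LinearMap.toContinuousLinearMap ((hol δ).linear : E →ₗ[ℝ] E)
    have hA : ∀ v, lin hol δ v = A v := fun _ => rfl
    rw [e1, e3, e2, h1 (∑ γ ∈ S, ρ (γ • x) • hol γ⁻¹ (g (γ • x))), hA, map_sum]
    have h2 : ∀ γ : Γ, ρ (γ • x) • hol δ (hol γ⁻¹ (g (γ • x))) =
        ρ (γ • x) • hol δ 0 + A (ρ (γ • x) • hol γ⁻¹ (g (γ • x))) := by
      intro γ
      rw [h1 (hol γ⁻¹ (g (γ • x))), hA, smul_add, map_smul]
    simp only [h2, Finset.sum_add_distrib, ← Finset.sum_smul, hs, one_smul]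
  have hFN : ∀ x, dev x ∈ H → F x = dev x + Z x := by
    intro x hx
    obtain ⟨S, h1, h2⟩ := hfin x
    have h3 : ∀ γ ∈ S, ρ (γ • x) • hol γ⁻¹ (g (γ • x)) = ρ (γ • x) • (dev x + Z x) := by
      intro γ _
      by_cases h0 : ρ (γ • x) = 0
      · rw [h0, zero_smul, zero_smul]
      · have h4 : dev (γ • x) ∈ H := by rw [D.equi]; exact hinv γ _ hx
        rw [hgN _ h0 h4, D.equi, hZe γ x hx, ← hol_add, hol_inv_apply]
    rw [h1, Finset.sum_congr rfl h3, ← Finset.sum_smul, h2, one_smul]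
  refine ⟨fun x => F x - dev x, hFc.sub hdc, fun γ x => ?_, fun x hx => ?_⟩
  · show F (γ • x) - dev (γ • x) = lin hol γ (F x - dev x)
    rw [hFe, D.equi, hol_sub]
  · rw [sub_eq_zero] at hx
    have h1 : dev x ∈ H := hx ▸ hFH x
    have h2 := hFN x h1
    rw [hx] at h2
    exact (hZt x h1).2 (left_eq_add.1 h2)

end

end Pool.Agent.W689.Ch
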