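import Pool.Agent.W689.Ch.Ext

set_option autoImplicit false

open Set Filter Topology Metric

namespace Pool.Agent.W689.Ch

open Pool.Agent.W689.Mk (lin hol_add hol_sub hol_inv_apply hol_apply_inv lin_inv_apply lin_mul
  lin_smul lin_neg hol_cont Rc hol_interior kernel_convex)

section
variable {X Γ E : Type} [TopologicalSpace X] [T2Space X] [Group Γ] [MulAction Γ X]
  [NormedAddCommGroup E] [NormedSpace ℝ E] [FiniteDimensional ℝ E]
  {dev : X → E} {hol : Γ →* (E ≃ᵃ[ℝ] E)}

/-- the centres of a set -/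
def Ker (S : Set E) : Set E := {q | q ∈ S ∧ StarConvex ℝ q S}

omit [TopologicalSpace X] [T2Space X] [MulAction Γ X] in
theorem Ker.inv {S : Set E} (hinv : ∀ (γ : Γ), ∀ q ∈ S, hol γ q ∈ S) (γ : Γ) {q : E}
    (hq : q ∈ Ker S) : hol γ q ∈ Ker S := by
  obtain ⟨hq, hsq⟩ := hq
  refine ⟨hinv γ q hq, fun r hr a b ha hb hab => ?_⟩
  have h2 := hinv γ _ (hsq (hinv γ⁻¹ r hr) ha hb hab)
  have ha' : a = 1 - b := by linarith
  have e1 : a • q + b • hol γ⁻¹ r = q + b • (hol γ⁻¹ r - q) := by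
    rw [ha']; module
  rw [e1, hol_add, lin_smul, ← hol_sub, hol_apply_inv] at h2
  have e2 : a • hol γ q + b • r = hol γ q + b • (r - hol γ q) := by
    rw [ha']; module
  rwa [e2]

theorem convex_dense {C : Set E} (hC : Convex ℝ C) (h : closure C = univ) : C = univ := by
  have h0 : (interior C).Nonempty := by
    have h1 : (intrinsicInterior ℝ C).Nonempty := by
      rw [intrinsicInterior_nonempty hC]
      by_contra hcon
      rw [not_nonempty_iff_eq_empty] at hcon
      rw [hcon, closure_empty] at h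
      exact (univ_nonempty (α := E)).ne_empty h.symm
    by_contra hcon
    have h2 : affineSpan ℝ C ≠ ⊤ := fun h' => hcon ((hC.interior_nonempty_iff_affineSpan_eq_top).2 h')
    apply h2
    have h3 : closure C ⊆ (affineSpan ℝ C : Set E) :=
      closure_minimal (subset_affineSpan ℝ C) (AffineSubspace.closed_of_finiteDimensional _)
    rw [h] at h3
    exact SetLike.coe_injective (univ_subset_iff.1 h3)
  have h2 := hC.interior_closure_eq_interior_of_nonempty_interior h0
  rw [h, interior_univ] at h2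
  exact univ_subset_iff.1 (h2 ▸ interior_subset)

/-- the main theorem -/
theorem main (D : AffMfd X Γ E dev hol) [Nonempty X] {S : Set E} {p : E} (hp : p ∈ S)
    (hs : StarConvex ℝ p S) (hne : S ≠ univ) (hinv : ∀ (γ : Γ), ∀ q ∈ S, hol γ q ∈ S)
    (hno : ¬ ∃ Z : X → E, Continuous Z ∧ (∀ (γ : Γ) x, Z (γ • x) = lin hol γ (Z x)) ∧
      ∀ x, Z x ≠ 0) :
    ¬ range dev ⊆ S ∧ (∃ x, dev x ∈ Ker S) ∧
      affineSpan ℝ (Ker S) ≠ ⊤ ∧ (∀ (γ : Γ), ∀ q ∈ affineSpan ℝ (Ker S),
        hol γ q ∈ affineSpan ℝ (Ker S)) ∧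
      ¬ ∃ Z : X → E, ContinuousOn Z (dev ⁻¹' affineSpan ℝ (Ker S)) ∧
        (∀ x, dev x ∈ affineSpan ℝ (Ker S) →
          Z x ∈ (affineSpan ℝ (Ker S)).direction ∧ Z x ≠ 0) ∧
        ∀ (γ : Γ) x, dev x ∈ affineSpan ℝ (Ker S) → Z (γ • x) = lin hol γ (Z x) := by
  have hC : Convex ℝ (Ker S) := kernel_convex S
  have hCinv : ∀ (γ : Γ), ∀ q ∈ Ker S, hol γ q ∈ Ker S := fun γ q hq => Ker.inv hinv γ hq
  have hCne : (Ker S).Nonempty := ⟨p, hp, hs⟩
  have hCu : closure (Ker S) ≠ univ := by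
    intro h
    have h1 := convex_dense hC h
    apply hne
    refine univ_subset_iff.1 fun q _ => ?_
    have : q ∈ Ker S := by rw [h1]; trivial
    exact this.1
  have hclinv : ∀ (γ : Γ), ∀ q ∈ closure (Ker S), hol γ q ∈ closure (Ker S) := by
    intro γ q hq
    have h1 : MapsTo (hol γ) (Ker S) (Ker S) := fun q hq => hCinv γ q hq
    exact h1.closure (hol_cont γ) hq
  have hsym : ∀ v ∈ Rc (closure (Ker S)), -v ∈ Rc (closure (Ker S)) := by
    intro v hv
    by_contra hv'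
    exact hno (field_of_cone D hC.closure hclinv hv hv')
  have hint : interior (Ker S) = ∅ := by
    by_contra hcon
    exact no_conv D hC.closure isClosed_closure
      ((nonempty_iff_ne_empty.2 hcon).mono (interior_mono subset_closure)) hclinv hsym hCu
  have hspan : ∀ (γ : Γ), ∀ q ∈ affineSpan ℝ (Ker S), hol γ q ∈ affineSpan ℝ (Ker S) := by
    intro γ q hq
    have h1 : (affineSpan ℝ (Ker S)).map (hol γ : E →ᵃ[ℝ] E) = affineSpan ℝ (hol γ '' Ker S) :=
      AffineSubspace.map_span _ _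
    have h2 : hol γ q ∈ (affineSpan ℝ (Ker S)).map (hol γ : E →ᵃ[ℝ] E) :=
      (AffineSubspace.mem_map).2 ⟨q, hq, rfl⟩
    rw [h1] at h2
    refine affineSpan_mono ℝ ?_ h2
    rintro _ ⟨r, hr, rfl⟩
    exact hCinv γ r hr
  refine ⟨fun h => hno (field_of_range D hs hne hinv h), ?_, ?_, hspan, ?_⟩
  · by_contra hcon
    push Not at hcon
    exact hno (field_of_disjoint D hC hCinv hCne hcon)
  · intro h
    have := (hC.interior_nonempty_iff_affineSpan_eq_top).2 h
    rw [hint] at this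
    exact this.ne_empty rfl
  · rintro ⟨Z, hZ1, hZ2, hZ3⟩
    exact hno (extend D ⟨p, subset_affineSpan ℝ _ (show p ∈ Ker S from ⟨hp, hs⟩)⟩ hspan
      hZ1 hZ2 hZ3)

end

end Pool.Agent.W689.Ch
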