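import Pool.Agent.W689.Mk.Conv2

set_option autoImplicit false

open Set Filter Topology Metric

namespace Pool.Agent.W689.Ch

section
variable {X Γ E : Type} [TopologicalSpace X] [Group Γ] [MulAction Γ X] [NormedAddCommGroup E]
  [NormedSpace ℝ E]

/-- A closed affine manifold `Γ \ X`, given by a cover `X`, the group `Γ` of deck transformations,
the developing map and the affine holonomy. -/
structure AffMfd (X Γ E : Type) [TopologicalSpace X] [Group Γ] [MulAction Γ X]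
    [NormedAddCommGroup E] [NormedSpace ℝ E] (dev : X → E) (hol : Γ →* (E ≃ᵃ[ℝ] E)) : Prop where
  /-- the developing map is a local homeomorphism -/
  loc : IsLocalHomeomorph dev
  /-- the group acts by homeomorphisms -/
  cont : ∀ γ : Γ, Continuous fun x : X => γ • x
  /-- the developing map is equivariant -/
  equi : ∀ (γ : Γ) (x : X), dev (γ • x) = hol γ (dev x)
  /-- the action is properly discontinuous -/
  pd : ∀ K : Set X, IsCompact K → {γ : Γ | ∃ x ∈ K, γ • x ∈ K}.Finite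
  /-- the quotient is compact -/
  cc : ∃ K : Set X, IsCompact K ∧ ∀ x : X, ∃ γ : Γ, ∃ k ∈ K, γ • k = x

variable {dev : X → E} {hol : Γ →* (E ≃ᵃ[ℝ] E)}

open Pool.Agent.W689.Mk (lin hol_add hol_sub hol_inv_apply hol_apply_inv lin_inv_apply lin_mul)

variable [T2Space X] [FiniteDimensional ℝ E]

theorem exists_cpt_nhd (D : AffMfd X Γ E dev hol) (x : X) : ∃ N ∈ 𝓝 x, IsCompact N := by
  obtain ⟨c, hcp, hcσ⟩ := Pool.Agent.W689.Mk.exists_cht D.loc
    (Pool.Agent.W689.Mk.LL.const (dev := dev) (0 : E)) x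
  have ho := c.sec.isOpen_image D.loc (V := ball c.p c.r) isOpen_ball
    (ball_subset_ball (by linarith [c.hr]))
  refine ⟨c.σ '' closedBall c.p c.r, ?_, ?_⟩
  · refine mem_of_superset (ho.mem_nhds ⟨dev x, ?_, hcσ⟩) (image_mono ball_subset_closedBall)
    rw [hcp]
    exact mem_ball_self c.hr
  · refine (isCompact_closedBall _ _).image_of_continuousOn (c.sec.cont.mono ?_)
    exact closedBall_subset_ball (by linarith [c.hr])

theorem locComp (D : AffMfd X Γ E dev hol) : LocallyCompactSpace X := by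
  have : WeaklyLocallyCompactSpace X :=
    ⟨fun x => by obtain ⟨N, hN, hc⟩ := exists_cpt_nhd D x; exact ⟨N, hc, hN⟩⟩
  infer_instance

/-- a weight on the cover -/
structure Wt (Γ : Type) [Group Γ] [MulAction Γ X] (ρ : X → ℝ) : Prop where
  cont : Continuous ρ
  nonneg : ∀ x, 0 ≤ ρ x
  locfin : ∀ x, ∃ U ∈ 𝓝 x, ∃ F : Finset Γ, ∀ γ : Γ, γ ∉ F → ∀ y ∈ U, ρ (γ • y) = 0
  cpt : HasCompactSupport ρ
  sum : ∀ x, ∑' γ : Γ, ρ (γ • x) = 1

theorem locfin_of (D : AffMfd X Γ E dev hol) {f : X → ℝ} (hf : HasCompactSupport f) (x : X) :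
    ∃ U ∈ 𝓝 x, ∃ F : Finset Γ, ∀ γ : Γ, γ ∉ F → ∀ y ∈ U, f (γ • y) = 0 := by
  obtain ⟨N, hN, hNc⟩ := exists_cpt_nhd D x
  have hF := D.pd (tsupport f ∪ N) (hf.isCompact.union hNc)
  refine ⟨N, hN, hF.toFinset, fun γ hγ y hy => ?_⟩
  by_contra hne
  apply hγ
  rw [Set.Finite.mem_toFinset]
  exact ⟨y, Or.inr hy, Or.inl (subset_tsupport f hne)⟩

theorem cont_tsum {W : Type} [NormedAddCommGroup W] {g : Γ → X → W} (hg : ∀ γ, Continuous (g γ))
    (h : ∀ x, ∃ U ∈ 𝓝 x, ∃ F : Finset Γ, ∀ γ : Γ, γ ∉ F → ∀ y ∈ U, g γ y = 0) :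
    Continuous fun x => ∑' γ : Γ, g γ x := by
  rw [continuous_iff_continuousAt]
  intro x
  obtain ⟨U, hU, F, hF⟩ := h x
  have h1 : ∀ᶠ y in 𝓝 x, ∑ γ ∈ F, g γ y = ∑' γ : Γ, g γ y := by
    filter_upwards [hU] with y hy
    exact (tsum_eq_sum fun γ hγ => hF γ hγ y hy).symm
  have h2 : Continuous fun y => ∑ γ ∈ F, g γ y := continuous_finsetSum _ fun γ _ => hg γ
  exact h2.continuousAt.congr h1

theorem exists_wt (D : AffMfd X Γ E dev hol) : ∃ ρ : X → ℝ, Wt Γ ρ := by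
  have := locComp D
  obtain ⟨K, hK, hcov⟩ := D.cc
  obtain ⟨f, hf1, -, hfc, hf0⟩ :=
    exists_continuous_one_zero_of_isCompact hK isClosed_empty (disjoint_empty K)
  let s : X → ℝ := fun x => ∑' γ : Γ, f (γ • x)
  have hlf := fun x => locfin_of D hfc x
  have hs : Continuous s := cont_tsum (fun γ => f.continuous.comp (D.cont γ)) hlf
  have hsum : ∀ x, Summable fun γ : Γ => f (γ • x) := by
    intro x
    obtain ⟨U, hU, F, hF⟩ := hlf x
    exact summable_of_ne_finset_zero (s := F) fun γ hγ => hF γ hγ x (mem_of_mem_nhds hU)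
  have hpos : ∀ x, 0 < s x := by
    intro x
    obtain ⟨γ, k, hk, hγ⟩ := hcov x
    have h1 : f (γ⁻¹ • x) = 1 := by
      rw [← hγ, inv_smul_smul]
      exact hf1 hk
    have h2 := (hsum x).le_tsum γ⁻¹ fun γ' _ => (hf0 (γ' • x)).1
    rw [h1] at h2
    exact lt_of_lt_of_le one_pos h2
  have hinv : ∀ (δ : Γ) x, s (δ • x) = s x := by
    intro δ x
    show ∑' γ : Γ, f (γ • δ • x) = ∑' γ : Γ, f (γ • x)
    rw [← Equiv.tsum_eq (Equiv.mulRight δ) (fun γ : Γ => f (γ • x))]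
    refine tsum_congr fun γ => ?_
    show f (γ • δ • x) = f ((γ * δ) • x)
    rw [smul_smul]
  refine ⟨fun x => f x / s x, f.continuous.div hs fun x => (hpos x).ne',
    fun x => div_nonneg (hf0 x).1 (hpos x).le, fun x => ?_, ?_, fun x => ?_⟩
  · obtain ⟨U, hU, F, hF⟩ := hlf x
    refine ⟨U, hU, F, fun γ hγ y hy => ?_⟩
    rw [hF γ hγ y hy, zero_div]
  · refine hfc.mono fun x hx hfx => hx ?_
    show f x / s x = 0
    rw [hfx, zero_div]
  · have h1 : ∀ γ : Γ, f (γ • x) / s (γ • x) = f (γ • x) / s x := fun γ => by rw [hinv]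
    calc ∑' γ : Γ, f (γ • x) / s (γ • x) = ∑' γ : Γ, f (γ • x) / s x := tsum_congr h1
      _ = (∑' γ : Γ, f (γ • x)) / s x := tsum_div_const
      _ = 1 := div_self (hpos x).ne'

/-- averages over the group -/
noncomputable def av {W : Type} [NormedAddCommGroup W] [NormedSpace ℝ W] (ρ : X → ℝ) (P : Γ → W)
    (x : X) : W := ∑' γ : Γ, ρ (γ • x) • P γ

variable {W : Type} [NormedAddCommGroup W] [NormedSpace ℝ W]

theorem av_cont (D : AffMfd X Γ E dev hol) {ρ : X → ℝ} (hρ : Wt Γ ρ) (P : Γ → W) :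
    Continuous (av ρ P) := by
  refine cont_tsum (fun γ => (hρ.cont.comp (D.cont γ)).smul continuous_const) fun x => ?_
  obtain ⟨U, hU, F, hF⟩ := hρ.locfin x
  exact ⟨U, hU, F, fun γ hγ y hy => by rw [hF γ hγ y hy, zero_smul]⟩

omit [T2Space X] [FiniteDimensional ℝ E] in
theorem av_sum {ρ : X → ℝ} (hρ : Wt Γ ρ) (P : Γ → W) (x : X) :
    ∃ F : Finset Γ, av ρ P x = ∑ γ ∈ F, ρ (γ • x) • P γ ∧ ∑ γ ∈ F, ρ (γ • x) = 1 := by
  obtain ⟨U, hU, F, hF⟩ := hρ.locfin x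
  have hx := mem_of_mem_nhds hU
  refine ⟨F, tsum_eq_sum fun γ hγ => by rw [hF γ hγ x hx, zero_smul], ?_⟩
  rw [← hρ.sum x]
  exact (tsum_eq_sum fun γ hγ => hF γ hγ x hx).symm

omit [T2Space X] [FiniteDimensional ℝ E] in
theorem av_mem {ρ : X → ℝ} (hρ : Wt Γ ρ) {C : Set W} (hC : Convex ℝ C) {P : Γ → W}
    (hP : ∀ γ, P γ ∈ C) (x : X) : av ρ P x ∈ C := by
  obtain ⟨F, h1, h2⟩ := av_sum hρ P x
  rw [h1]
  exact hC.sum_mem (fun γ _ => hρ.nonneg _) h2 (fun γ _ => hP γ)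

omit [T2Space X] [FiniteDimensional ℝ E] in
theorem av_summable {ρ : X → ℝ} (hρ : Wt Γ ρ) (P : Γ → W) (x : X) :
    Summable fun γ : Γ => ρ (γ • x) • P γ := by
  obtain ⟨U, hU, F, hF⟩ := hρ.locfin x
  exact summable_of_ne_finset_zero (s := F) fun γ hγ => by
    rw [hF γ hγ x (mem_of_mem_nhds hU), zero_smul]

omit [TopologicalSpace X] [T2Space X] [FiniteDimensional ℝ E] in
theorem av_shift {ρ : X → ℝ} (P : Γ → W) (δ : Γ) (x : X) :
    av ρ P (δ • x) = av ρ (fun γ => P (γ * δ⁻¹)) x := by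
  unfold av
  rw [← Equiv.tsum_eq (Equiv.mulRight δ) (fun γ : Γ => ρ (γ • x) • P (γ * δ⁻¹))]
  refine tsum_congr fun γ => ?_
  show ρ (γ • δ • x) • P γ = ρ ((γ * δ) • x) • P (γ * δ * δ⁻¹)
  rw [mul_inv_cancel_right, smul_smul]

theorem av_lin {ρ : X → ℝ} (hρ : Wt Γ ρ) (v : E) (δ : Γ) (x : X) :
    av ρ (fun γ : Γ => lin hol γ⁻¹ v) (δ • x) = lin hol δ (av ρ (fun γ : Γ => lin hol γ⁻¹ v) x) := by
  rw [av_shift]
  let A : E →L[ℝ] E := LinearMap.toContinuousLinearMap ((hol δ).linear : E →ₗ[ℝ] E)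
  have hA : ∀ v, lin hol δ v = A v := fun _ => rfl
  rw [hA]
  unfold av
  rw [A.map_tsum (av_summable hρ _ x)]
  refine tsum_congr fun γ => ?_
  rw [map_smul, ← hA, ← lin_mul]
  show ρ (γ • x) • lin hol (γ * δ⁻¹)⁻¹ v = ρ (γ • x) • lin hol (δ * γ⁻¹) v
  rw [mul_inv_rev, inv_inv]

theorem av_hol {ρ : X → ℝ} (hρ : Wt Γ ρ) (p : E) (δ : Γ) (x : X) :
    av ρ (fun γ : Γ => hol γ⁻¹ p) (δ • x) = hol δ (av ρ (fun γ : Γ => hol γ⁻¹ p) x) := by
  rw [av_shift]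
  have h1 : ∀ v, hol δ v = hol δ 0 + lin hol δ v := fun v => by
    have := hol_add (hol := hol) δ 0 v
    rwa [zero_add] at this
  let A : E →L[ℝ] E := LinearMap.toContinuousLinearMap ((hol δ).linear : E →ₗ[ℝ] E)
  have hA : ∀ v, lin hol δ v = A v := fun _ => rfl
  have h2 : ∀ γ : Γ, hol (γ * δ⁻¹)⁻¹ p = hol δ 0 + A (hol γ⁻¹ p) := by
    intro γ
    rw [← hA, ← h1, mul_inv_rev, inv_inv, map_mul]
    rfl
  obtain ⟨U, hU, F, hF⟩ := hρ.locfin x
  have hx := mem_of_mem_nhds hU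
  have hs : ∑ γ ∈ F, ρ (γ • x) = 1 := by
    rw [← hρ.sum x]
    exact (tsum_eq_sum fun γ hγ => hF γ hγ x hx).symm
  have e1 : ∀ P : Γ → E, av ρ P x = ∑ γ ∈ F, ρ (γ • x) • P γ := fun P =>
    tsum_eq_sum fun γ hγ => by rw [hF γ hγ x hx, zero_smul]
  rw [e1, e1, h1, hA, map_sum]
  simp only [h2, smul_add, map_smul, Finset.sum_add_distrib, ← Finset.sum_smul, hs, one_smul]

end

end Pool.Agent.W689.Ch
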